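import Pool.Agent.H13.LK.Stmts
import Pool.Agent.H13.KAL.KP1

/-!
# The label form in dimension one

Direct proof: the label is the last tube which has a large conditional probability given the
position.
-/

set_option autoImplicit false

namespace Pool.LK.L50

open Finset Real
open Pool.Agent.H49.Ent Pool.Agent.H32.Dense Pool.STK Pool.KA Pool.KSAT Pool.K2S
open Pool.KAL.KP1

variable {m J : ℕ}

/-- A variable which is determined by another one and the condition. -/
theorem CH_le_det {Ω S T U : Type} [Fintype Ω] {p : Ω → ℝ} (hp : ∀ ω, 0 ≤ p ω) (X : Ω → S)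
    (Y : Ω → T) (Z : Ω → U) (h : Det p (fun ω => (Y ω, Z ω)) X) : CH p X Z ≤ CH p Y Z := by
  have h1 := CH_le_add hp X Y Z
  have h2 : CH p X (fun ω => (Y ω, Z ω)) = 0 := CH_eq_zero hp h
  linarith

/-- The entropy of a function of the line, by means of the position. -/
theorem C_le (F : Fam m J) {γ : Type} (C : F.Ω → γ) (hC : Det F.p F.l C) {e : ℝ}
    (he : F.Tm e) :
    CH F.p C F.Z ≤ CH F.p (F.X J) F.W + e + CH F.p C (fun ω => (F.X J ω, F.W ω)) -
      CH F.p (F.X J) (fun ω => (C ω, F.W ω)) := by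
  have hp := F.isLaw.nonneg
  have h2 := CH_bayes hp (F.X J) C F.W
  have h3 := CH_bayes hp C F.T F.Z
  have h4 := TRC.CH_lt F.isLaw F.T F.Z J F.tim
  have h5 : CH F.p F.T (fun ω => (F.l ω, F.Z ω)) ≤ CH F.p F.T (fun ω => (C ω, F.Z ω)) := by
    refine CH_mono_cond hp ?_
    intro ω ω' a a' h
    simp only [Prod.mk.injEq] at h ⊢
    exact ⟨hC ω ω' a a' h.1, h.2⟩
  unfold Fam.Tm at he
  have h6 : CH F.p C F.W = CH F.p C (fun ω => (F.T ω, F.Z ω)) := rfl
  linarith

/-- The same, for lines which meet. -/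
theorem C_le_gp (F : Fam 1 J) {γ : Type} (C : F.Ω → γ) (hC : Det F.p F.l C) {e : ℝ}
    (he : F.Tm e) :
    CH F.p C F.Z ≤ CH F.p (F.X J) F.W + 3 * e + Real.log 6 +
      CH F.p C (fun ω => (F.X J ω, F.W ω)) -
      Ex (dbl F.p (fun ω => (C ω, (F.X J ω, F.W ω)))) (fun w => Real.log (gp F w)) := by
  have h1 := C_le F C hC he
  have h2 := mates F C hC
  have h3 := time_le F C
  have h4 := TRC.CH_lt F.isLaw F.T (fun ω => (C ω, F.Z ω)) J F.tim
  unfold Fam.Tm at he
  linarith

/-- One type. -/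
theorem type_lab (F : Fam 1 J) {N : ℕ} (hN : 0 < N) {k : ℝ} (hk : 0 ≤ k) (a : Fin (N + 1))
    (ha : 0 < law F.p (typ F N k) a) (h : IsLaw (cond F.p (typ F N k) a)) {e : ℝ}
    (he : (F.res (typ F N k) a h).Tm e) :
    CH (cond F.p (typ F N k) a) (cel F N a.val) F.Z +
      ((J : ℝ) - qs J N a.val) * Real.log 2 ≤
      CH (cond F.p (typ F N k) a) (F.X J) F.W + 3 * e + Real.log 6 + N * k * J +
      ((J : ℝ) / N + 1) * Real.log 2 +
      J * Real.log 2 * (49 * Real.exp (-(k * J)) / law F.p (typ F N k) a) := by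
  classical
  set G := F.res (typ F N k) a h with hG
  set r : F.Ω → ℝ := cond F.p (typ F N k) a with hr
  have hl2 : 0 < Real.log 2 := Real.log_pos (by norm_num)
  have hGp : ∀ ω, 0 ≤ r ω := h.nonneg
  -- the scales
  set q := qs J N a.val with hq
  set q' := qs J N (a.val + 1) with hq'
  have hqJ : q ≤ J := qs_le _ _ _
  have hqJ' : q' ≤ J := qs_le _ _ _
  have hqq : (q' : ℝ) - q ≤ (J : ℝ) / N + 1 := qs_step hN a.val
  have hqJr : (q : ℝ) ≤ J := by exact_mod_cast hqJ
  have hqJr' : (q' : ℝ) ≤ J := by exact_mod_cast hqJ'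
  -- the cell
  have hC : Det G.p G.l (cel F N a.val) := fun ω ω' _ _ hh => cel_det F N a.val hh
  set z : F.Ω → ((Fin 1 → ℤ) × (Fin 1 → ℤ)) × ((Fin 1 → ℤ) × (ℕ × F.ζ)) :=
    fun ω => (cel F N a.val ω, yy F ω) with hz
  have h1 : CH r (cel F N a.val) F.Z ≤ CH r (F.X J) F.W + 3 * e + Real.log 6 +
      CH r (cel F N a.val) (yy F) -
      Ex (dbl r z) (fun w => Real.log (gp F w)) := C_le_gp G (cel F N a.val) hC he
  -- entropy of the cell
  have h0 : ∀ ω, 0 < F.p ω → typ F N k ω = a →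
      Real.exp (-(a.val * k * J)) * law F.p (yy F) (yy F ω) ≤
        law F.p (fun ω => (cel F N a.val ω, yy F ω)) (cel F N a.val ω, yy F ω) := by
    intro ω _ hω
    have := typ_big F N k ω
    rw [hω] at this
    exact this
  have h2 : CH r (cel F N a.val) (yy F) ≤ N * k * J := by
    have e1 := ent_type F.isLaw (yy F) (cel F N a.val) (typ F N k) a ha
      (Real.exp (-(a.val * k * J))) (Real.exp_pos _) h0
    rw [Real.log_exp, neg_neg] at e1
    refine le_trans e1 ?_
    have e2 : (a.val : ℝ) ≤ N := by exact_mod_cast Nat.lt_succ_iff.mp a.isLt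
    have e3 : (0 : ℝ) ≤ k * J := mul_nonneg hk (Nat.cast_nonneg J)
    nlinarith
  -- the distance of the directions
  obtain ⟨near, hnear⟩ : ∃ near : F.Ω → F.Ω → Prop, ∀ ω ω', near ω ω' ↔
      2 ^ J * |F.d ω 0 - F.d ω' 0| < 2 ^ (J - q') := ⟨_, fun _ _ => Iff.rfl⟩
  have hdn : ∀ w, 0 ≤ dbl r z w := fun w => dbl_nonneg hGp w
  have hd1 : ∑ w, dbl r z w = 1 := by rw [(dbl_fst hGp).sum, h.sum_one]
  have h4 : (((J : ℝ) - q') * Real.log 2) * (1 - Ex (dbl r z)
      (fun w => if near w.1 w.2 then 1 else 0)) ≤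
      Ex (dbl r z) (fun w => Real.log (gp F w)) := by
    have e1 : (((J : ℝ) - q') * Real.log 2) * (1 - Ex (dbl r z)
        (fun w => if near w.1 w.2 then 1 else 0)) =
        Ex (dbl r z) (fun w => (((J : ℝ) - q') * Real.log 2) *
          (1 - if near w.1 w.2 then 1 else 0)) := by
      rw [Ex_smul, Ex_sub, Ex_const hd1]
    rw [e1]
    refine Ex_mono hdn fun w _ => ?_
    by_cases hw : near w.1 w.2
    · rw [if_pos hw, sub_self, mul_zero]
      exact Real.log_nonneg (one_le_gp F w)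
    · rw [if_neg hw, sub_zero, mul_one]
      rw [hnear] at hw
      have e2 : (2 : ℝ) ^ (J - q') ≤ gp F w := (not_lt.mp hw).trans (le_max_right _ _)
      have e3 := Real.log_le_log (by positivity) e2
      rw [Real.log_pow, Nat.cast_sub hqJ'] at e3
      exact e3
  have h5 : ((J : ℝ) - q') * Real.log 2 - J * Real.log 2 *
      (49 * Real.exp (-(k * J)) / law F.p (typ F N k) a) ≤
      Ex (dbl r z) (fun w => Real.log (gp F w)) := by
    refine le_trans ?_ h4
    have c0 : 0 ≤ 49 * Real.exp (-(k * J)) / law F.p (typ F N k) a := by positivity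
    rcases (Nat.lt_succ_iff.mp a.isLt).eq_or_lt with haN | haN
    · have e1 : q' = J := by
        rw [hq', haN]
        exact qs_last hN
      rw [e1, sub_self, zero_mul, zero_mul]
      have : 0 ≤ J * Real.log 2 * (49 * Real.exp (-(k * J)) / law F.p (typ F N k) a) := by
        positivity
      linarith
    · have e1 := coll F.isLaw (yy F) (cel F N a.val) (cel F N (a.val + 1)) (typ F N k) a ha
        (Real.exp (-(a.val * k * J))) (Real.exp (-((a.val + 1 : ℕ) * k * J)))
        (Real.exp_pos _) (Real.exp_pos _).le h0 (by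
          intro ω _ hω
          have e2 := typ_next F N k ω (by rw [hω]; exact haN)
          rw [hω] at e2
          unfold Big at e2
          exact (not_le.mp e2).le) near Nb 49 Nb_card (by
          intro ω ω' hy hn
          have e3 : ∀ ω, cel F N (a.val + 1) ω = F.L q' ω := by
            intro ω
            unfold cel
            rw [if_neg (Nat.succ_ne_zero _)]
          rw [e3, e3]
          exact near_cell F hqJ' hy ((hnear ω ω').mp hn))
      have e4 : ((49 : ℕ) : ℝ) * Real.exp (-((a.val + 1 : ℕ) * k * J)) /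
          Real.exp (-(a.val * k * J)) / law F.p (typ F N k) a =
          49 * Real.exp (-(k * J)) / law F.p (typ F N k) a := by
        congr 1
        push_cast
        rw [mul_div_assoc, ← Real.exp_sub]
        congr 2
        ring
      rw [e4] at e1
      have e5 : Ex (dbl r z) (fun w => if near w.1 w.2 then (1 : ℝ) else 0) ≤
          49 * Real.exp (-(k * J)) / law F.p (typ F N k) a := e1
      set E := Ex (dbl r z) (fun w => if near w.1 w.2 then (1 : ℝ) else 0) with hE
      have e6 : ((J : ℝ) - q') * Real.log 2 * E ≤ J * Real.log 2 *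
          (49 * Real.exp (-(k * J)) / law F.p (typ F N k) a) := by
        have k1 : ((J : ℝ) - q') * Real.log 2 * E ≤ ((J : ℝ) - q') * Real.log 2 *
            (49 * Real.exp (-(k * J)) / law F.p (typ F N k) a) :=
          mul_le_mul_of_nonneg_left e5 (mul_nonneg (by linarith) hl2.le)
        refine k1.trans (mul_le_mul_of_nonneg_right ?_ c0)
        have : (0 : ℝ) ≤ q' := Nat.cast_nonneg _
        nlinarith
      linarith
  have h8 := mul_le_mul_of_nonneg_right hqq hl2.le
  linarith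

/-- The label. -/
noncomputable def lb (F : Fam 1 J) (N : ℕ) (k : ℝ) : Lbl F 1 where
  k := fun ω _ => qs J N (typ F N k ω).val
  M := fun _ _ _ => 1
  le := fun _ _ => qs_le _ _ _
  bd := fun _ _ _ => by norm_num
  inv := fun _ => ⟨fun _ _ => 1, fun _ _ => by norm_num, fun i l => by
    rw [if_pos (Subsingleton.elim i l)]
    simp⟩

theorem mco_one (x : Fin 1 → ℝ) : mco (fun _ _ => (1 : ℝ)) x = x := by
  funext i
  unfold mco
  rw [Fin.sum_univ_one, one_mul, Subsingleton.elim i 0]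

/-- The value of the label. -/
theorem lb_lab (F : Fam 1 J) (N : ℕ) (k : ℝ) (ω : F.Ω) :
    (lb F N k).lab ω = (((fun _ => qs J N (typ F N k ω).val), fun _ _ => 1),
      F.L (qs J N (typ F N k ω).val) ω) := by
  unfold Lbl.lab lb
  simp only [mco_one]
  rfl

theorem sum_typ {Ω κ : Type} [Fintype Ω] [Fintype κ] (p : Ω → ℝ) (A : Ω → κ) (g : κ → ℝ) :
    ∑ ω, p ω * g (A ω) = ∑ a, law p A a * g a := by
  classical
  unfold law
  simp only [Finset.sum_mul]
  rw [Finset.sum_comm]
  refine Finset.sum_congr rfl fun ω _ => ?_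
  rw [Finset.sum_eq_single (A ω)]
  · simp
  · intro b _ hb
    rw [if_neg (Ne.symm hb), zero_mul]
  · intro h
    exact absurd (Finset.mem_univ _) h

/-- The cost of the label. -/
theorem cost_le (F : Fam 1 J) (hZ : Det F.p F.Z (F.L 0)) {N : ℕ} (hN : 0 < N) {k : ℝ}
    (hk : 0 ≤ k) {e : ℝ} (he0 : 0 ≤ e) (he : F.Tm e) :
    (lb F N k).cost ≤ CH F.p (F.X J) F.W + 3 * (N + 1) * (e + Real.log (N + 1)) +
      Real.log (N + 1) + Real.log 6 + N * k * J + ((J : ℝ) / N + 1) * Real.log 2 +
      (N + 1) * (J * Real.log 2 * (49 * Real.exp (-(k * J)))) := by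
  classical
  have hp := F.isLaw.nonneg
  have hl2 : 0 < Real.log 2 := Real.log_pos (by norm_num)
  have hlN : 0 ≤ Real.log (N + 1) := Real.log_nonneg (by
    have : (0 : ℝ) ≤ N := Nat.cast_nonneg N
    linarith)
  obtain ⟨h, h'⟩ := tya_thm 1 J F (Fin (N + 1)) (typ F N k) e he
  obtain ⟨-, h2⟩ := h' h
  have hlaw0 : ∀ a, 0 ≤ law F.p (typ F N k) a := fun a => law_nonneg hp _ _
  -- the volume
  have v1 : (∑ ω, F.p ω * ∑ i, ((J : ℝ) - (lb F N k).k ω i)) =
      ∑ a, law F.p (typ F N k) a * ((J : ℝ) - qs J N a.val) := by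
    rw [← sum_typ F.p (typ F N k) (fun a => (J : ℝ) - qs J N a.val)]
    refine Finset.sum_congr rfl fun ω _ => ?_
    rw [Fin.sum_univ_one]
    rfl
  -- the entropy
  have v2 := (tya_CH_le F.isLaw (lb F N k).lab F.Z (typ F N k)).2
  rw [Fintype.card_fin, tya_CH_sum hp] at v2
  have v3 : CH F.p (F.X J) (fun ω => (typ F N k ω, F.W ω)) ≤ CH F.p (F.X J) F.W :=
    (tya_CH_le F.isLaw (F.X J) F.W (typ F N k)).1
  rw [tya_CH_sum hp] at v3
  set R : ℝ := Real.log 6 + N * k * J + ((J : ℝ) / N + 1) * Real.log 2 with hR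
  set c : ℝ := J * Real.log 2 * (49 * Real.exp (-(k * J))) with hc
  have hc0 : 0 ≤ c := by positivity
  have h4 : ∀ a : Fin (N + 1), law F.p (typ F N k) a * CH (cond F.p (typ F N k) a)
      (lb F N k).lab F.Z + law F.p (typ F N k) a * ((J : ℝ) - qs J N a.val) * Real.log 2 ≤
      law F.p (typ F N k) a * CH (cond F.p (typ F N k) a) (F.X J) F.W +
      (3 * (e + Real.log (N + 1)) + law F.p (typ F N k) a * R + c) := by
    intro a
    by_cases ha : 0 < law F.p (typ F N k) a
    · have h5 := h2 a ha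
      rw [Fintype.card_fin] at h5
      push_cast at h5
      have h6 := type_lab F hN hk a ha (h a ha) h5
      have hla : CH (cond F.p (typ F N k) a) (lb F N k).lab F.Z ≤
          CH (cond F.p (typ F N k) a) (cel F N a.val) F.Z := by
        refine CH_le_det (h a ha).nonneg _ _ _ ?_
        intro ω ω' b b' hh
        obtain ⟨e1, e2⟩ := Prod.ext_iff.mp hh
        change cel F N a.val ω = cel F N a.val ω' at e1
        change F.Z ω = F.Z ω' at e2
        have t1 := (cond_eq _ _ _ b).1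
        have t2 := (cond_eq _ _ _ b').1
        have b1 := cond_pos hp _ _ _ b
        have b2 := cond_pos hp _ _ _ b'
        rw [lb_lab, lb_lab, t1, t2]
        refine Prod.ext rfl ?_
        change F.L (qs J N a.val) ω = F.L (qs J N a.val) ω'
        by_cases h0 : a.val = 0
        · rw [h0]
          have : qs J N 0 = 0 := by
            unfold KAL.KP1.qs
            simp
          rw [this]
          exact hZ ω ω' b1 b2 e2
        · unfold cel at e1
          rw [if_neg h0, if_neg h0] at e1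
          exact e1
      have h7 := mul_le_mul_of_nonneg_left h6 ha.le
      have h9 := mul_le_mul_of_nonneg_left hla ha.le
      have h8 : law F.p (typ F N k) a ≠ 0 := ha.ne'
      have h10 : law F.p (typ F N k) a * (CH (cond F.p (typ F N k) a) (F.X J) F.W +
          3 * ((e + Real.log (N + 1)) / law F.p (typ F N k) a) + Real.log 6 + N * k * J +
          ((J : ℝ) / N + 1) * Real.log 2 +
          J * Real.log 2 * (49 * Real.exp (-(k * J)) / law F.p (typ F N k) a)) =
          law F.p (typ F N k) a * CH (cond F.p (typ F N k) a) (F.X J) F.W +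
          (3 * (e + Real.log (N + 1)) + law F.p (typ F N k) a * R + c) := by
        rw [hR, hc]
        field_simp
        ring
      rw [h10] at h7
      refine le_trans ?_ h7
      rw [mul_add]
      linarith
    · have h5 : law F.p (typ F N k) a = 0 := le_antisymm (not_lt.mp ha) (hlaw0 a)
      rw [h5]
      simp only [zero_mul, zero_add, add_zero]
      linarith
  have h5 := Finset.sum_le_sum (s := Finset.univ) fun a _ => h4 a
  rw [Finset.sum_add_distrib, Finset.sum_add_distrib] at h5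
  have h6 : ∑ a : Fin (N + 1), (3 * (e + Real.log (N + 1)) + law F.p (typ F N k) a * R + c) =
      (N + 1) * (3 * (e + Real.log (N + 1))) + R + (N + 1) * c := by
    have k1 : ∑ a : Fin (N + 1), law F.p (typ F N k) a * R = R := by
      rw [← Finset.sum_mul, tya_law_sum, F.isLaw.sum_one, one_mul]
    rw [Finset.sum_add_distrib, Finset.sum_add_distrib, k1, Finset.sum_const, Finset.sum_const,
      Finset.card_univ, Fintype.card_fin, nsmul_eq_mul, nsmul_eq_mul]
    push_cast
    ring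
  rw [h6] at h5
  unfold Lbl.cost
  rw [v1, Finset.sum_mul]
  push_cast at v2
  linarith

/-! ### The unit cell -/

/-- The unit cell of the line, given the position. -/
theorem CH_L0 (F : Fam m J) : CH F.p (F.L 0) (fun ω => (F.X J ω, F.W ω)) ≤ 2 * cc m := by
  have hp := F.isLaw.nonneg
  have h1 : CH F.p (F.L 0) (fun ω => (F.X J ω, F.W ω)) ≤
      CH F.p (fun ω => fl 0 (F.u ω)) (fun ω => (F.X J ω, F.W ω)) +
      CH F.p (F.D 0) (fun ω => (F.X J ω, F.W ω)) := CH_subadd hp _ _ _
  have h2 := Rows.CH_D_le F 0 (fun ω => (F.X J ω, F.W ω))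
  have h3 := Pool.KA.TRC.CH_le_round F.isLaw (fun ω => fl 0 (F.u ω)) (F.X 0) (fun ω => (F.X J ω, F.W ω))
    (fun ω ω' _ _ _ e k => by
      have hh : ∀ ω, |(2 : ℝ) ^ 0 * F.u ω k - 2 ^ 0 * F.x ω k| ≤ 1 := by
        intro ω
        have h2 := F.dir ω k
        have ht0 : 0 ≤ F.t ω := by
          unfold Fam.t
          positivity
        have ht1 : F.t ω ≤ 1 := by
          unfold Fam.t
          rw [div_le_one (by positivity)]
          exact_mod_cast (F.tim ω).le
        have e : (2 : ℝ) ^ 0 * F.u ω k - 2 ^ 0 * F.x ω k = -(F.t ω * F.d ω k) := by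
          unfold Fam.x
          ring
        rw [e, abs_neg, abs_mul, abs_of_nonneg ht0]
        calc F.t ω * |F.d ω k| ≤ 1 * 1 := mul_le_mul ht1 h2 (abs_nonneg _) (by norm_num)
          _ = 1 := by norm_num
      exact Pool.KA.TRC.floor_close (A := 2 ^ 0 * F.x ω k) (B := 2 ^ 0 * F.x ω' k) (congrFun e k)
        (hh ω) (hh ω'))
  have h4 : CH F.p (F.X 0) (fun ω => (F.X J ω, F.W ω)) = 0 := by
    refine CH_eq_zero hp fun ω ω' _ _ e => ?_
    exact Pool.STK.B58.fl_fine (Nat.zero_le J) (Prod.ext_iff.mp e).1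
  simp only [Nat.cast_zero, zero_mul, mul_zero, zero_add] at h2
  linarith

/-- It is enough to consider lines in a known unit cell. -/
theorem cell0 (F : Fam m J) {e : ℝ} (he : F.Tm e) {b : ℝ} (B : Lbl (F.cnd (F.L 0)) b) :
    (F.cnd (F.L 0)).Tm e ∧ ∃ B' : Lbl F b, B'.cost - CH F.p (F.X J) F.W ≤
      B.cost - CH (F.cnd (F.L 0)).p ((F.cnd (F.L 0)).X J) (F.cnd (F.L 0)).W +
        (e + 2 * cc m) := by
  have hp := F.isLaw.nonneg
  constructor
  · unfold Fam.Tm at he ⊢
    refine he.trans ?_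
    change CH F.p F.T (fun ω => (F.l ω, F.Z ω)) ≤ CH F.p F.T (fun ω => (F.l ω, (F.L 0 ω, F.Z ω)))
    refine CH_mono_cond hp fun ω ω' _ _ hh => ?_
    have e1 := (Prod.ext_iff.mp hh).1
    have e2 := (Prod.ext_iff.mp hh).2
    refine Prod.ext e1 (Prod.ext ?_ e2)
    have h3 : F.u ω = F.u ω' := (Prod.ext_iff.mp e1).1
    have h4 : F.d ω = F.d ω' := (Prod.ext_iff.mp e1).2
    change F.L 0 ω = F.L 0 ω'
    unfold Fam.L
    rw [h3, h4]
  · refine ⟨⟨B.k, B.M, B.le, B.bd, B.inv⟩, ?_⟩
    have h1 := CH_le_add hp B.lab (F.L 0) F.Z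
    have hL : Det F.p F.l (F.L 0) := by
      intro ω ω' _ _ e1
      have h3 : F.u ω = F.u ω' := (Prod.ext_iff.mp e1).1
      have h4 : F.d ω = F.d ω' := (Prod.ext_iff.mp e1).2
      change F.L 0 ω = F.L 0 ω'
      unfold Fam.L
      rw [h3, h4]
    have h2 := C_le F (F.L 0) hL he
    have h3 := CH_L0 F
    have h4 : CH F.p (F.X J) (fun ω => (F.L 0 ω, F.W ω)) =
        CH (F.cnd (F.L 0)).p ((F.cnd (F.L 0)).X J) (F.cnd (F.L 0)).W := by
      refine CH_congr hp (fun _ _ _ _ h => (Prod.ext_iff.mp h).1)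
        (fun _ _ _ _ h => (Prod.ext_iff.mp h).1) ?_ ?_
      · intro ω ω' _ _ h
        have a1 := (Prod.ext_iff.mp h).1
        have a2 := (Prod.ext_iff.mp (Prod.ext_iff.mp h).2).1
        have a3 := (Prod.ext_iff.mp (Prod.ext_iff.mp h).2).2
        exact Prod.ext a2 (Prod.ext a1 a3)
      · intro ω ω' _ _ h
        have a1 := (Prod.ext_iff.mp h).1
        have a2 := (Prod.ext_iff.mp (Prod.ext_iff.mp h).2).1
        have a3 := (Prod.ext_iff.mp (Prod.ext_iff.mp h).2).2
        exact Prod.ext a2 (Prod.ext a1 a3)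
    have h5 : B.cost = CH F.p B.lab (fun ω => (F.L 0 ω, F.Z ω)) +
        (∑ ω, F.p ω * ∑ i, ((J : ℝ) - B.k ω i)) * Real.log 2 := rfl
    have h6 : (Lbl.cost (F := F) (b := b) ⟨B.k, B.M, B.le, B.bd, B.inv⟩) =
        CH F.p B.lab F.Z + (∑ ω, F.p ω * ∑ i, ((J : ℝ) - B.k ω i)) * Real.log 2 := rfl
    rw [h5, h6, ← h4]
    linarith

end Pool.LK.L50

namespace Pool.LK

open Finset Real
open Pool.Agent.H49.Ent Pool.Agent.H32.Dense Pool.STK Pool.KA Pool.KSAT Pool.K2S
open Pool.KAL.KP1

theorem lk1_thm : LK1Stmt := by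
  intro ε hε
  have hl2 : 0 < Real.log 2 := Real.log_pos (by norm_num)
  have hl2' : Real.log 2 ≤ 1 := by
    have := Real.log_le_sub_one_of_pos (x := 2) (by norm_num)
    linarith
  have hcc : 0 ≤ cc 1 := by
    unfold cc
    exact mul_nonneg (by positivity) (Real.log_nonneg (by norm_num))
  obtain ⟨N, hN⟩ := exists_nat_gt (8 / ε)
  have hN0 : (0 : ℝ) < N := lt_trans (by positivity) hN
  have hN1 : 0 < N := by exact_mod_cast hN0
  have hNε : 1 / (N : ℝ) ≤ ε / 8 := by
    rw [div_le_div_iff₀ hN0 (by norm_num)]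
    rw [div_lt_iff₀ hε] at hN
    linarith
  set k : ℝ := ε / (8 * N) with hk
  have hk0 : 0 < k := by positivity
  set θ : ℝ := ε / (24 * (N + 1)) with hθ
  have hθ0 : 0 < θ := by positivity
  set B : ℝ := 3 * (N + 1) * Real.log (N + 1) + Real.log (N + 1) + Real.log 6 +
    Real.log 2 + 2 * cc 1 with hB
  obtain ⟨J₀, hJ₀⟩ := exists_nat_gt (max (8 * B / ε) (8 * 49 * (N + 1) / (ε * k)))
  refine ⟨θ, hθ0, J₀, fun J hJ F hF => ?_⟩
  have hJr : (J₀ : ℝ) ≤ J := by exact_mod_cast hJ
  have hJ1 : 8 * B / ε < J := lt_of_le_of_lt (le_max_left _ _) (lt_of_lt_of_le hJ₀ hJr)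
  have hJ2 : 8 * 49 * (N + 1) / (ε * k) < J :=
    lt_of_le_of_lt (le_max_right _ _) (lt_of_lt_of_le hJ₀ hJr)
  have hJ0 : (0 : ℝ) < J := lt_trans (by positivity) hJ2
  obtain ⟨hT, B', hB'⟩ := L50.cell0 F hF (L50.lb (F.cnd (F.L 0)) N k)
  have h1 := L50.cost_le (F.cnd (F.L 0)) (fun ω ω' _ _ e => (Prod.ext_iff.mp e).1) hN1 hk0.le
    (mul_nonneg hθ0.le hJ0.le) hT
  refine ⟨B', ?_⟩
  have t1 : B ≤ ε * J / 8 := by
    rw [div_lt_iff₀ hε] at hJ1
    linarith
  have t2 : 3 * ((N : ℝ) + 1) * (θ * J) = ε * J / 8 := by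
    rw [hθ]
    field_simp
    ring
  have t2' : θ * J ≤ ε * J / 8 := by
    have : 1 * (θ * J) ≤ 3 * ((N : ℝ) + 1) * (θ * J) := by
      refine mul_le_mul_of_nonneg_right ?_ (by positivity)
      linarith
    linarith
  have t3 : (N : ℝ) * k * J = ε * J / 8 := by
    rw [hk]
    field_simp
  have t4 : (J : ℝ) / N * Real.log 2 ≤ ε * J / 8 := by
    have e1 : (J : ℝ) / N * Real.log 2 ≤ (J : ℝ) / N := by
      have : 0 ≤ (J : ℝ) / N := by positivity
      nlinarith
    have e2 : (J : ℝ) / N = 1 / N * J := by ring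
    have e3 := mul_le_mul_of_nonneg_right hNε hJ0.le
    rw [← e2] at e3
    linarith
  have t5 : ((N : ℝ) + 1) * (J * Real.log 2 * (49 * Real.exp (-(k * J)))) ≤ ε * J / 8 := by
    have e1 : Real.exp (-(k * J)) ≤ 1 / (k * J) := by
      rw [Real.exp_neg, ← one_div]
      refine one_div_le_one_div_of_le (by positivity) ?_
      have := Real.add_one_le_exp (k * J)
      linarith
    have e2 : 49 * ((N : ℝ) + 1) * (1 / (k * J)) ≤ ε / 8 := by
      rw [div_lt_iff₀ (by positivity)] at hJ2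
      rw [mul_one_div, div_le_div_iff₀ (by positivity) (by norm_num)]
      nlinarith
    have e3 : 49 * ((N : ℝ) + 1) * Real.exp (-(k * J)) ≤ ε / 8 :=
      le_trans (mul_le_mul_of_nonneg_left e1 (by positivity)) e2
    have e4 : ((N : ℝ) + 1) * (J * Real.log 2 * (49 * Real.exp (-(k * J)))) =
        (49 * ((N : ℝ) + 1) * Real.exp (-(k * J))) * (J * Real.log 2) := by ring
    rw [e4]
    calc (49 * ((N : ℝ) + 1) * Real.exp (-(k * J))) * (J * Real.log 2) ≤
        ε / 8 * (J * 1) := by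
          refine mul_le_mul e3 (mul_le_mul_of_nonneg_left hl2' hJ0.le) (by positivity)
            (by positivity)
      _ = ε * J / 8 := by ring
  have t6 : 0 ≤ ε * J := by positivity
  have e7 : 3 * ((N : ℝ) + 1) * (θ * J + Real.log (N + 1)) =
      3 * ((N : ℝ) + 1) * (θ * J) + 3 * (N + 1) * Real.log (N + 1) := by ring
  have e8 : ((J : ℝ) / N + 1) * Real.log 2 = (J : ℝ) / N * Real.log 2 + Real.log 2 := by ring
  rw [e7, e8, t2, t3] at h1
  linarith

end Pool.LK
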